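import Pool.Agent.MP_fcd29e_an.H11.CS

/-! Invariant smooth extension. -/

set_option autoImplicit false

open Complex Set Filter Topology Metric Pool.Agent.MP_fcd29e_an.H81
open scoped ContDiff

namespace Pool.Agent.MP_fcd29e_an.H22

open Pool.Agent.MP_fcd29e_an.H11

noncomputable section

variable {N : ℕ}

/-- Projection onto the affine hyperplane through `k`. -/
def pr (l : E N →L[ℂ] ℂ) (k z : E N) : E N := (l k / l z) • z

theorem pr_smul (l : E N →L[ℂ] ℂ) (k : E N) {c : ℂ} (hc : c ≠ 0) (z : E N) :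
    pr l k (c • z) = pr l k z := by
  unfold pr
  rw [smul_smul, map_smul, smul_eq_mul]
  congr 1
  by_cases h : l z = 0
  · simp [h]
  · field_simp

theorem pr_self (l : E N →L[ℂ] ℂ) {k : E N} (hk : l k ≠ 0) : pr l k k = k := by
  simp [pr, hk]

theorem pr_contDiffAt (l : E N →L[ℂ] ℂ) (k : E N) {z : E N} (hz : l z ≠ 0) :
    ContDiffAt ℝ ∞ (pr l k) z := by
  have h1 : ContDiffAt ℂ ∞ (pr l k) z :=
    (contDiffAt_const.div l.contDiff.contDiffAt hz).smul contDiffAt_id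
  exact h1.restrict_scalars ℝ

theorem comp_pr (l : E N →L[ℂ] ℂ) {k : E N} (hk : l k ≠ 0) {r : ℝ} (hr : r ≤ ‖k‖)
    {h : E N → ℝ} (hh : ContDiff ℝ ∞ h) (h0 : ∀ y, r ≤ dist y k → h y = 0) :
    ContDiffOn ℝ ∞ (fun z => h (pr l k z)) (E0 N) := by
  intro z hz
  refine ContDiffAt.contDiffWithinAt ?_
  by_cases hl : l z = 0
  · have hz' : 0 < ‖z‖ := norm_pos_iff.2 hz
    have h1 : ∀ᶠ y in 𝓝 z, (‖k‖ + r) * ‖l y‖ < ‖l k‖ * ‖y‖ := by
      refine ContinuousAt.eventually_lt (by fun_prop) (by fun_prop) ?_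
      rw [hl, norm_zero, mul_zero]
      exact mul_pos (norm_pos_iff.2 hk) hz'
    refine (contDiffAt_const (c := (0 : ℝ))).congr_of_eventuallyEq (h1.mono fun y hy => ?_)
    refine h0 _ ?_
    by_cases hy0 : l y = 0
    · simpa [pr, hy0] using hr
    · have h2 : ‖k‖ + r < ‖pr l k y‖ := by
        rw [pr, norm_smul, norm_div, div_mul_eq_mul_div, lt_div_iff₀ (norm_pos_iff.2 hy0)]
        exact hy
      have h3 := norm_sub_norm_le (pr l k y) k
      rw [dist_eq_norm]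
      linarith
  · exact hh.contDiffAt.comp z (pr_contDiffAt l k hl)

theorem local_step {S : Set (E N)} {f : E N → ℝ} {b : Prop} (hS : Cone S)
    (hf : ∀ c : ℂ, c ≠ 0 → ∀ z ∈ S, f (c • z) = f z) {k : E N} (hk : k ≠ 0) {g : E N → ℝ}
    (hg : ∀ᶠ z in 𝓝 k, ContDiffAt ℝ ∞ g z ∧ (b → 0 ≤ g z) ∧ (z ∈ S → g z = f z)) :
    ∃ χ G : E N → ℝ, ContDiffOn ℝ ∞ χ (E0 N) ∧ ContDiffOn ℝ ∞ G (E0 N) ∧ Inv χ ∧ Inv G ∧
      (∀ z, 0 ≤ χ z) ∧ (b → ∀ z, 0 ≤ G z) ∧ χ k = 1 ∧ ∀ z ∈ S, G z = χ z * f z := by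
  obtain ⟨ε, hε, hb⟩ := Metric.eventually_nhds_iff.1 hg
  have hk' : 0 < ‖k‖ := norm_pos_iff.2 hk
  obtain ⟨r, hr0, hr1, hr2⟩ : ∃ r : ℝ, 0 < r ∧ r < ε ∧ r ≤ ‖k‖ :=
    ⟨min (ε / 2) ‖k‖, lt_min (by linarith) hk', (min_le_left _ _).trans_lt (by linarith),
      min_le_right _ _⟩
  let φ : ContDiffBump k := ⟨r / 2, r, by linarith, by linarith⟩
  let l : E N →L[ℂ] ℂ := innerSL ℂ k
  have hl : l k ≠ 0 := by simpa [l] using hk
  have h0 : ∀ y, r ≤ dist y k → φ y = 0 := fun y hy => φ.zero_of_le_dist hy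
  have hh : ContDiff ℝ ∞ fun y => φ y * g y := by
    refine contDiff_iff_contDiffAt.2 fun y => ?_
    by_cases hy : dist y k < ε
    · exact φ.contDiff.contDiffAt.mul (hb hy).1
    · have h1 : ∀ᶠ x in 𝓝 y, r < dist x k :=
        ContinuousAt.eventually_lt (by fun_prop) (by fun_prop) (hr1.trans_le (not_lt.1 hy))
      exact (contDiffAt_const (c := (0 : ℝ))).congr_of_eventuallyEq
        (h1.mono fun x hx => by simp [h0 x hx.le])
  refine ⟨fun z => φ (pr l k z), fun z => φ (pr l k z) * g (pr l k z),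
    comp_pr l hl hr2 φ.contDiff h0, comp_pr l hl hr2 hh fun y hy => by simp [h0 y hy],
    fun c hc z => by simp only [pr_smul l k hc], fun c hc z => by simp only [pr_smul l k hc],
    fun z => φ.nonneg, fun hb' z => ?_, ?_, fun z hz => ?_⟩
  · by_cases hy : dist (pr l k z) k < ε
    · exact mul_nonneg φ.nonneg ((hb hy).2.1 hb')
    · simp [h0 _ (hr1.le.trans (not_lt.1 hy))]
  · simp only [pr_self l hl]
    exact φ.one_of_mem_closedBall (mem_closedBall_self φ.rIn_pos.le)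
  · by_cases hy : r ≤ dist (pr l k z) k
    · simp [h0 _ hy]
    · have hz0 : l z ≠ 0 := fun h => hy (by simpa [pr, h] using hr2)
      have hc : l k / l z ≠ 0 := div_ne_zero hl hz0
      have h1 := (hb ((not_le.1 hy).trans hr1)).2.2 (hS.2 _ hc z hz)
      simp only [h1]
      rw [pr, hf _ hc z hz]

theorem sex (_hCU : SCU) : SEX := by
  intro N K S f b hK hcl hS hf hloc
  have H : ∀ k : K, ∃ χ G : E N → ℝ, ContDiffOn ℝ ∞ χ (E0 N) ∧ ContDiffOn ℝ ∞ G (E0 N) ∧ Inv χ ∧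
      Inv G ∧ (∀ z, 0 ≤ χ z) ∧ (b → ∀ z, 0 ≤ G z) ∧ χ k = 1 ∧ ∀ z ∈ S, G z = χ z * f z := by
    rintro ⟨k, hk⟩
    obtain ⟨c, hc, g, hg⟩ := hloc k hk
    have hk0 : k ≠ 0 := fun h => hK.1 (h ▸ hk)
    obtain ⟨χ, G, h1, h2, h3, h4, h5, h6, h7, h8⟩ := local_step hS hf (smul_ne_zero hc hk0) hg
    exact ⟨χ, G, h1, h2, h3, h4, h5, h6, by rw [← h3 c hc k]; exact h7, h8⟩
  choose χ G h1 h2 h3 h4 h5 h6 h7 h8 using H
  have hop : ∀ u : E N → ℝ, ContDiffOn ℝ ∞ u (E0 N) → IsOpen (E0 N ∩ u ⁻¹' Ioi (1 / 2)) :=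
    fun u hu => hu.continuousOn.isOpen_inter_preimage isOpen_compl_singleton isOpen_Ioi
  have hcp : IsCompact ((K ∪ {0}) ∩ sphere (0 : E N) 1) := (isCompact_sphere _ _).inter_left hcl
  obtain ⟨t, ht⟩ := hcp.elim_finite_subcover (fun k : K => E0 N ∩ χ k ⁻¹' Ioi (1 / 2))
    (fun k => hop _ (h1 k)) (by
      rintro z ⟨hz | hz, hz1⟩
      · refine mem_iUnion.2 ⟨⟨z, hz⟩, fun h => hK.1 (mem_singleton_iff.1 h ▸ hz), ?_⟩
        rw [mem_preimage, h7 ⟨z, hz⟩]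
        norm_num
      · rw [mem_singleton_iff.1 hz] at hz1
        simp at hz1)
  let σ : E N → ℝ := fun z => ∑ k ∈ t, χ k z
  have hσ : ContDiffOn ℝ ∞ σ (E0 N) := ContDiffOn.sum fun k _ => h1 k
  have hσ0 : ∀ z, 0 ≤ σ z := fun z => Finset.sum_nonneg fun k _ => h5 k z
  have hσi : Inv σ := fun c hc z => Finset.sum_congr rfl fun k _ => h3 k c hc z
  have hD : ∀ z, 0 < σ z + expNegInvGlue (1 - 2 * σ z) := fun z => by
    rcases (hσ0 z).eq_or_lt with h | h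
    · rw [← h]
      simpa using expNegInvGlue.pos_of_pos one_pos
    · exact add_pos_of_pos_of_nonneg h (expNegInvGlue.nonneg _)
  refine ⟨fun z => (∑ k ∈ t, G k z) / (σ z + expNegInvGlue (1 - 2 * σ z)),
    E0 N ∩ σ ⁻¹' Ioi (1 / 2), hop _ hσ, fun z hz => ?_, ?_, fun c hc z => ?_, fun hb z => ?_,
    fun z hz hzS => ?_⟩
  · have hz0 : z ≠ 0 := fun h => hK.1 (h ▸ hz)
    have hn : ((‖z‖⁻¹ : ℝ) : ℂ) ≠ 0 := by simpa using hz0
    have hm : ((‖z‖⁻¹ : ℝ) : ℂ) • z ∈ (K ∪ {0}) ∩ sphere (0 : E N) 1 :=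
      ⟨Or.inl (hK.2 _ hn z hz), by simp [norm_smul, hz0]⟩
    obtain ⟨k, hk, -, h9⟩ := mem_iUnion₂.1 (ht hm)
    rw [mem_preimage, h3 k _ hn z] at h9
    exact ⟨hz0, lt_of_lt_of_le h9 (Finset.single_le_sum (fun k _ => h5 k z) hk)⟩
  · exact (ContDiffOn.sum fun k _ => h2 k).div (hσ.add (expNegInvGlue.contDiff.comp_contDiffOn
      (contDiffOn_const.sub (contDiffOn_const.mul hσ)))) fun z _ => (hD z).ne'
  · simp only [hσi c hc z, fun k => h4 k c hc z]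
  · exact div_nonneg (Finset.sum_nonneg fun k _ => h6 k hb z) (hD z).le
  · have h9 : 1 / 2 < σ z := hz.2
    simp only [fun k => h8 k z hzS, ← Finset.sum_mul]
    rw [expNegInvGlue.zero_of_nonpos (by linarith), add_zero]
    exact mul_div_cancel_left₀ _ (by linarith : σ z ≠ 0)

end

end Pool.Agent.MP_fcd29e_an.H22
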